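import Mathlib
import Pool.Agent.J4.H12.Boron3
import Pool.Agent.J4.H12.Boron4

/-!
A permutation group on an infinite set which is 5-homogeneous and 3-transitive, not 4-transitive,
and which preserves no linear order, no circular order, and no converse pair of such orders.

The group is the group of all permutations of the projective line over the field of Hahn series
with rational exponents over the field of two elements which preserve the quartet relation of the
valuation (the leaves of a dense trivalent tree).
-/

set_option autoImplicit false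

namespace Pool.Agent.Results.MP_deb208_al.BoronTree

/-- `G` acts transitively on the `t`-element subsets of `X`. -/
def IsHomog {X : Type} (G : Subgroup (Equiv.Perm X)) (t : ℕ) : Prop :=
  ∀ s u : Finset X, s.card = t → u.card = t → ∃ g ∈ G, g '' (s : Set X) = (u : Set X)

/-- `G` acts transitively on the ordered `t`-tuples of pairwise distinct elements of `X`. -/
def IsTrans {X : Type} (G : Subgroup (Equiv.Perm X)) (t : ℕ) : Prop :=
  ∀ a b : Fin t → X, Function.Injective a → Function.Injective b →
    ∃ g ∈ G, ∀ i, g (a i) = b i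

/-- `R` is a strict total order on `X`. -/
def LinOrd {X : Type} (R : X → X → Prop) : Prop :=
  (∀ x, ¬ R x x) ∧ (∀ x y z, R x y → R y z → R x z) ∧ ∀ x y, x ≠ y → R x y ∨ R y x

/-- `C` is a circular order on `X`. -/
def CircOrd {X : Type} (C : X → X → X → Prop) : Prop :=
  (∀ x y z, C x y z → C y z x) ∧ (∀ x y z, C x y z → ¬ C z y x) ∧
  (∀ x y z w, C x y z → C x z w → C x y w) ∧
  ∀ x y z, x ≠ y → y ≠ z → x ≠ z → C x y z ∨ C z y x

/-- There is a linear order on `X` which every element of `G` maps to itself or to its converse. -/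
def PresLin {X : Type} (G : Subgroup (Equiv.Perm X)) : Prop :=
  ∃ R : X → X → Prop, LinOrd R ∧
    ∀ g ∈ G, (∀ x y, R x y ↔ R (g x) (g y)) ∨ (∀ x y, R y x ↔ R (g x) (g y))

/-- There is a circular order on `X` which every element of `G` maps to itself or to its
converse. -/
def PresCirc {X : Type} (G : Subgroup (Equiv.Perm X)) : Prop :=
  ∃ C : X → X → X → Prop, CircOrd C ∧
    ∀ g ∈ G, (∀ x y z, C x y z ↔ C (g x) (g y) (g z)) ∨ (∀ x y z, C z y x ↔ C (g x) (g y) (g z))

open Pool.Agent.J4.H12.Boron

variable {K : Type} [Field K] (V : VF K)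

theorem not_presLin : ¬ PresLin (G V) := by
  rintro ⟨R, ⟨h1, h2, h3⟩, hR⟩
  have asym : ∀ x y, R x y → ¬ R y x := fun x y h h' => h1 x (h2 x y x h h')
  have H : ∀ a b c : Option K, a ≠ b → a ≠ c → b ≠ c → (R a c ↔ R c b) := by
    intro a b c hab hac hbc
    obtain ⟨g, hg, ga, gb, gc⟩ := trans3 V a b c b a c hab hac hbc hab.symm hbc hac
    rcases hR g hg with h | h
    · exfalso
      have k := h a b
      rw [ga, gb] at k
      rcases h3 a b hab with h4 | h4
      · exact asym a b h4 (k.mp h4)
      · exact asym b a h4 (k.mpr h4)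
    · have k := h b c
      rw [gb, gc] at k
      exact k.symm
  have n1 : (none : Option K) ≠ some 0 := by simp
  have n2 : (none : Option K) ≠ some 1 := by simp
  have n3 : (some 0 : Option K) ≠ some 1 := by simp
  generalize (none : Option K) = a at n1 n2
  generalize (some 0 : Option K) = b at n1 n3
  generalize (some 1 : Option K) = c at n2 n3
  rcases h3 a c n2 with h | h
  · have e1 := (H a b c n1 n2 n3).mp h
    have e2 := (H c a b n2.symm n3.symm n1).mp e1
    exact h1 a (h2 a b a (h2 a c b h e1) e2)
  · have e1 := (H c b a n3.symm n2.symm n1.symm).mp h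
    have e2 := (H a c b n2 n1 n3.symm).mp e1
    exact h1 c (h2 c b c (h2 c a b h e1) e2)

theorem not_presCirc : ¬ PresCirc (G V) := by
  rintro ⟨C, ⟨h1, h2, -, h4⟩, hC⟩
  obtain ⟨g, hg, g0, g1, g2, g3, g4⟩ := exists_swap V
  have key : ∀ x y z, C x y z ↔ C (g x) (g y) (g z) := by
    rcases hC g hg with h | h
    · exact h
    · exfalso
      have k := h none (some 1) (some (V.t + 1))
      rw [g0, g1, g2] at k
      have n : (some 1 : Option K) ≠ some (V.t + 1) := by
        intro h
        have h' : (1 : K) = V.t + 1 := Option.some_injective _ h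
        exact V.t_ne (by simpa using h'.symm)
      rcases h4 none (some 1) (some (V.t + 1)) (by simp) n (by simp) with h5 | h5
      · exact h2 _ _ _ h5 (k.mpr h5)
      · exact h2 _ _ _ h5 (k.mp h5)
  have n : (some 0 : Option K) ≠ some V.t := by
    intro h
    exact V.t_ne (Option.some_injective _ h).symm
  rcases h4 none (some 0) (some V.t) (by simp) n (by simp) with h5 | h5
  · have k := (key _ _ _).mp h5
    rw [g0, g3, g4] at k
    exact h2 _ _ _ h5 (h1 _ _ _ k)
  · have k := (key _ _ _).mp h5
    rw [g0, g3, g4] at k
    exact h2 _ _ _ h5 (h1 _ _ _ (h1 _ _ _ k))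

theorem isTrans3 : IsTrans (G V) 3 := by
  intro a b ha hb
  obtain ⟨g, hg, g0, g1, g2⟩ := trans3 V (a 0) (a 1) (a 2) (b 0) (b 1) (b 2)
    (ha.ne (by decide)) (ha.ne (by decide)) (ha.ne (by decide))
    (hb.ne (by decide)) (hb.ne (by decide)) (hb.ne (by decide))
  refine ⟨g, hg, ?_⟩
  intro i
  fin_cases i
  · exact g0
  · exact g1
  · exact g2

theorem not_isTrans4 : ¬ IsTrans (G V) 4 := by
  intro h
  have n1 := t_ne_one V
  have n2 := V.t_ne
  have inj : ∀ a b c d : Option K, a ≠ b → a ≠ c → a ≠ d → b ≠ c → b ≠ d → c ≠ d →
      Function.Injective ![a, b, c, d] := by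
    intro a b c d hab hac had hbc hbd hcd i k hik
    fin_cases i <;> fin_cases k <;> simp_all
  obtain ⟨g, hg, e⟩ := h ![none, some 1, some 0, some V.t] ![none, some 0, some 1, some V.t]
    (inj _ _ _ _ (by simp) (by simp) (by simp) (by simp) (by simpa using n1.symm)
      (by simpa using n2.symm))
    (inj _ _ _ _ (by simp) (by simp) (by simp) (by simp) (by simpa using n2.symm)
      (by simpa using n1.symm))
  exact not4 V ⟨g, hg, e 0, e 1, e 2, e 3⟩

/-- There is a group of permutations of an infinite set which is 5-homogeneous, 3-transitive and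
not 4-transitive, for which there is no linear order and no circular order on the set such that
every element of the group maps the order to itself or to its converse. -/
theorem result : ∃ (X : Type) (G : Subgroup (Equiv.Perm X)), Infinite X ∧ IsHomog G 5 ∧
    IsTrans G 3 ∧ ¬ IsTrans G 4 ∧ ¬ PresLin G ∧ ¬ PresCirc G := by
  refine ⟨Option HK, G hkVF, ?_, ?_, isTrans3 hkVF, not_isTrans4 hkVF, not_presLin hkVF,
    not_presCirc hkVF⟩
  · have : Infinite HK := by
      refine Infinite.of_injective (fun q : ℚ => (HahnSeries.single q (1 : ZMod 2) : HK)) ?_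
      intro p q h
      by_contra hne
      have := congrArg (fun z => HahnSeries.coeff z p) h
      simp [HahnSeries.coeff_single_of_ne hne] at this
    infer_instance
  · exact homog hkVF

end Pool.Agent.Results.MP_deb208_al.BoronTree
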